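import Pool.Agent.Lib.MP_524519_ag.DU5.Top
import Pool.Agent.Lib.MP_524519_ag.DU5.TR.Iface
import Pool.Agent.Lib.MP_524519_ag.DU5.LNK.Iface

/-!
# DU5, chapter TE: Teissier's inequality for the surface (`TE2Statement`). Statements of the modules.

`S = F⟦x, y⟧ = PC.R2 F` (`x = X 0`, `y = X 1`), `S⟦W⟧ = PowerSeries (PC.R2 F)`, `W = x_2 - lam x_1`.
-/

set_option autoImplicit false

namespace Pool.Agent.DU5.TE

open MvPowerSeries

/-- The inclusion of `F⟦W⟧` in `(F⟦x, y⟧)⟦W⟧`. -/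
noncomputable def wi (F : Type) [Field F] : PowerSeries F →+* PowerSeries (PC.R2 F) :=
  PowerSeries.map (MvPowerSeries.C (σ := Fin 2) (R := F))

/-- COP: the syzygies of two series in `F⟦x, y⟧` of finite colength. -/
def CopStatement : Prop := ∀ (F : Type) [Field F] (a b : PC.R2 F),
  len F (Ideal.span {a, b}) ≠ ⊤ → ∀ u v : PC.R2 F, u * a + v * b = 0 →
  ∃ c : PC.R2 F, u = c * b ∧ v = -(c * a)

/-- SPM: modulo an ideal of finite colength every series is a combination of finitely many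
monomials. -/
def SpmStatement : Prop := ∀ (F : Type) [Field F] (I : Ideal (PC.R2 F)), len F I ≠ ⊤ →
  ∃ M : ℕ, ∀ s : PC.R2 F, ∃ c : Fin M → Fin M → F,
    s - ∑ i, ∑ j, MvPowerSeries.C (c i j) * (X 0 : PC.R2 F) ^ (i : ℕ) *
      (X 1 : PC.R2 F) ^ (j : ℕ) ∈ I

/-- ALG: the commutative algebra (helper63). -/
def AlgStatement : Prop := ∀ (F : Type) [Field F] (N : ℕ), PC.Good F N →
  ∀ g₁ g₂ u h : PowerSeries (PC.R2 F),
  len F (Ideal.span {PowerSeries.constantCoeff g₁, PowerSeries.constantCoeff g₂}) ≤ N →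
  len F (Ideal.span {g₁, g₂, h}) ≠ ⊤ →
  (∀ (n : ℕ) (hn : n ≠ 0), (n : F) ≠ 0 → ∀ χ : PowerSeries (PC.R2 F) →+* PowerSeries F,
    (∀ c, χ (wi F c) = PC.ex F n hn c) → χ g₁ = 0 → χ g₂ = 0 → χ h ≠ 0 →
    (χ u).order ≤ (χ h).order + n) →
  len F (Ideal.span {g₁, g₂, u}) ≤ len F (Ideal.span {g₁, g₂, h}) +
    len F (Ideal.span {PowerSeries.constantCoeff g₁, PowerSeries.constantCoeff g₂})

/-- ISO: the coordinates `x_0, x_1, W = x_2 - lam x_1`. -/
def IsoStatement : Prop := ∀ (F : Type) [Field F] (lam : F),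
  ∃ Θ : O F 3 ≃+* PowerSeries (PC.R2 F),
    (∀ c : F, Θ (MvPowerSeries.C c) = PowerSeries.C (MvPowerSeries.C c)) ∧
    Θ (X 2 - MvPowerSeries.C lam * X 1) = PowerSeries.X ∧
    ∀ h, PowerSeries.constantCoeff (Θ h) = rs lam h

/-- EVL: every `F`-homomorphism `F⟦x_1, .., x_n⟧ → F⟦s⟧` is a substitution. -/
def EvlStatement : Prop := ∀ (F : Type) [Field F] (n : ℕ) (ψ : O F n →+* PowerSeries F),
  (∀ c : F, ψ (MvPowerSeries.C c) = PowerSeries.C c) →
  (∀ i, PowerSeries.constantCoeff (ψ (X i)) = 0) ∧ ∀ h, ψ h = ev (fun i => ψ (X i)) h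

/-- ORD: the order of `G` at a point of `G_0 = G_1 + lam G_2 = 0`. -/
def OrdStatement : Prop := ∀ (F : Type) [Field F] (n : ℕ), n ≠ 0 → (n : F) ≠ 0 → ∀ (lam : F)
  (x : Fin 3 → PowerSeries F) (G : O F 3), (∀ i, PowerSeries.constantCoeff (x i) = 0) →
  x 2 - PowerSeries.C lam * x 1 = PowerSeries.X ^ n → constantCoeff G = 0 →
  ev x (pderiv F 0 G) = 0 → ev x (pderiv F 1 G + MvPowerSeries.C lam * pderiv F 2 G) = 0 →
  ev x (pderiv F 2 G) ≠ 0 → (ev x G).order ≤ (ev x (pderiv F 2 G)).order + n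

/-- FUL: the colength of an ideal does not increase under extension of the field. -/
def FulStatement : Prop := ∀ (k F : Type) [Field k] [Field F] [Algebra k F] (n : ℕ)
  (I : Ideal (O k n)), len F (I.map (MvPowerSeries.map (algebraMap k F))) ≤ len k I

/-- BCD: extension of the field: derivatives, constant coefficient, restriction. -/
def BcdStatement : Prop := ∀ (k F : Type) [Field k] [Field F] [Algebra k F] (lam : F),
  (∀ (i : Fin 3) (h : O k 3), pderiv F i (bc k F h) = bc k F (pderiv k i h)) ∧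
  (∀ h : O k 3, rs lam (bc k F h) = rs lam h)

end Pool.Agent.DU5.TE
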